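import Pool.Agent.Helper5.LCU.Stmts

/-! Row K1 (helper46). -/

set_option autoImplicit false

open Finset Pool.Agent.Helper89.UB

namespace Pool.Agent.Helper5.LCU

/-- row K1 -/
theorem st_K1 (hGF : ST_GF) (hCOR : ST_COR) (hBC : ST_BC) (hCHS : ST_CHS) (hMUL : ST_MUL)
    (hREV : ST_REV) : ST_K1 := by
  intro a b ha hb n q
  have hb' : SLC (fun x => b (q + x)) :=
    ⟨fun i => hb.1 _, fun i j hij => hb.2 (q + i) (q + j) (by omega)⟩
  have hd := hREV _ hb' n
  have h1 : SLC (fun _ : ℕ => (1 : ℝ)) := ⟨fun _ => zero_le_one, fun _ _ _ => le_rfl⟩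
  have ht := hBC _ _ hd h1
  have hs := hMUL _ _ (hCHS n) ht
  have hc := hCOR _ _ hs ha (n + 1)
  have e : (fun p => GA a b n p q) = fun p => ∑ i ∈ range (n + 1),
      ((n.choose i : ℝ) * BC (fun r => if r ≤ n then b (q + (n - r)) else 0)
        (fun _ : ℕ => (1 : ℝ)) i) * a (p + i) := by
    funext p
    rw [hGF a b n p q]
    apply Finset.sum_congr rfl
    intro i hi
    have hin : i ≤ n := by
      have := Finset.mem_range.1 hi
      omega
    congr 2
    unfold BC
    apply Finset.sum_congr rfl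
    intro r hr
    have hri : r ≤ i := by
      have := Finset.mem_range.1 hr
      omega
    have hrn : r ≤ n := hri.trans hin
    show (i.choose r : ℝ) * b (q + n - r) =
      (i.choose r : ℝ) * (if r ≤ n then b (q + (n - r)) else 0) * 1
    rw [if_pos hrn, mul_one, Nat.add_sub_assoc hrn]
  rw [e]
  exact hc

end Pool.Agent.Helper5.LCU
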