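import Pool.Agent.Helper5.LCU.Stmts

/-! Row PLC (helper46). -/

set_option autoImplicit false

open Finset Pool.Agent.Helper89.UB

namespace Pool.Agent.Helper5.LCU

theorem plc_core (G : ℕ → ℕ → ℝ) (h0 : ∀ p q, 0 ≤ G p q)
    (h1 : ∀ p q, G p q * G (p + 2) q ≤ G (p + 1) q * G (p + 1) q)
    (h2 : ∀ p q, G p q * G p (q + 2) ≤ G p (q + 1) * G p (q + 1))
    (h3 : ∀ p q, G p q * G (p + 1) (q + 1) ≤ G (p + 1) q * G p (q + 1))
    (hs : ∀ p q p' q', p' ≤ p → q' ≤ q → 0 < G 0 0 → 0 < G p q → 0 < G p' q') :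
    G 0 0 * (G 2 0 + G 0 2 + G 2 2 + 2 * G 1 1 + 2 * G 2 1 + 2 * G 1 2) ≤
      (G 1 0 + G 0 1 + G 1 1) ^ 2 := by
  have a1 := h1 0 0
  have a2 := h2 0 0
  have a3 := h3 0 0
  norm_num at a1 a2 a3
  have a4 : G 0 0 * G 2 1 ≤ G 1 0 * G 1 1 := by
    by_cases h : 0 < G 0 0 ∧ 0 < G 2 1
    · have p01 := hs 2 1 0 1 (by norm_num) le_rfl h.1 h.2
      have p11 := hs 2 1 1 1 (by norm_num) le_rfl h.1 h.2
      have b1 : G 0 1 * G 2 1 ≤ G 1 1 * G 1 1 := h1 0 1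
      have b2 : G 0 1 * G 2 1 * (G 0 0 * G 1 1) ≤ G 1 1 * G 1 1 * (G 1 0 * G 0 1) :=
        mul_le_mul b1 a3 (mul_nonneg (h0 _ _) (h0 _ _)) (mul_nonneg (h0 _ _) (h0 _ _))
      refine le_of_mul_le_mul_left ?_ (mul_pos p01 p11)
      linarith
    · have : G 0 0 * G 2 1 = 0 := by
        rcases not_and_or.1 h with h | h
        · rw [le_antisymm (not_lt.1 h) (h0 0 0), zero_mul]
        · rw [le_antisymm (not_lt.1 h) (h0 2 1), mul_zero]
      rw [this]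
      exact mul_nonneg (h0 _ _) (h0 _ _)
  have a5 : G 0 0 * G 1 2 ≤ G 0 1 * G 1 1 := by
    by_cases h : 0 < G 0 0 ∧ 0 < G 1 2
    · have p10 := hs 1 2 1 0 le_rfl (by norm_num) h.1 h.2
      have p11 := hs 1 2 1 1 le_rfl (by norm_num) h.1 h.2
      have b1 : G 1 0 * G 1 2 ≤ G 1 1 * G 1 1 := h2 1 0
      have b2 : G 1 0 * G 1 2 * (G 0 0 * G 1 1) ≤ G 1 1 * G 1 1 * (G 1 0 * G 0 1) :=
        mul_le_mul b1 a3 (mul_nonneg (h0 _ _) (h0 _ _)) (mul_nonneg (h0 _ _) (h0 _ _))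
      refine le_of_mul_le_mul_left ?_ (mul_pos p10 p11)
      linarith
    · have : G 0 0 * G 1 2 = 0 := by
        rcases not_and_or.1 h with h | h
        · rw [le_antisymm (not_lt.1 h) (h0 0 0), zero_mul]
        · rw [le_antisymm (not_lt.1 h) (h0 1 2), mul_zero]
      rw [this]
      exact mul_nonneg (h0 _ _) (h0 _ _)
  have a6 : G 0 0 * G 2 2 ≤ G 1 1 * G 1 1 := by
    by_cases h : 0 < G 0 0 ∧ 0 < G 2 2
    · have p01 := hs 2 2 0 1 (by norm_num) (by norm_num) h.1 h.2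
      have p02 := hs 2 2 0 2 (by norm_num) (by norm_num) h.1 h.2
      have p12 := hs 2 2 1 2 (by norm_num) (by norm_num) h.1 h.2
      have b1 : G 0 2 * G 2 2 ≤ G 1 2 * G 1 2 := h1 0 2
      have b2 : G 0 1 * G 1 2 ≤ G 1 1 * G 0 2 := h3 0 1
      have b3 : G 0 2 * G 2 2 * (G 0 1 * G 1 2) ≤ G 1 2 * G 1 2 * (G 1 1 * G 0 2) :=
        mul_le_mul b1 b2 (mul_nonneg (h0 _ _) (h0 _ _)) (mul_nonneg (h0 _ _) (h0 _ _))
      have b4 : G 2 2 * G 0 1 ≤ G 1 2 * G 1 1 := by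
        refine le_of_mul_le_mul_left ?_ (mul_pos p02 p12)
        linarith
      have b5 : G 2 2 * G 0 1 * (G 0 0 * G 1 2) ≤ G 1 2 * G 1 1 * (G 0 1 * G 1 1) :=
        mul_le_mul b4 a5 (mul_nonneg (h0 _ _) (h0 _ _)) (mul_nonneg (h0 _ _) (h0 _ _))
      refine le_of_mul_le_mul_left ?_ (mul_pos p01 p12)
      linarith
    · have : G 0 0 * G 2 2 = 0 := by
        rcases not_and_or.1 h with h | h
        · rw [le_antisymm (not_lt.1 h) (h0 0 0), zero_mul]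
        · rw [le_antisymm (not_lt.1 h) (h0 2 2), mul_zero]
      rw [this]
      exact mul_nonneg (h0 _ _) (h0 _ _)
  have e : G 0 0 * (G 2 0 + G 0 2 + G 2 2 + 2 * G 1 1 + 2 * G 2 1 + 2 * G 1 2) =
      G 0 0 * G 2 0 + G 0 0 * G 0 2 + G 0 0 * G 2 2 + 2 * (G 0 0 * G 1 1) +
        2 * (G 0 0 * G 2 1) + 2 * (G 0 0 * G 1 2) := by ring
  have e2 : (G 1 0 + G 0 1 + G 1 1) ^ 2 = G 1 0 * G 1 0 + G 0 1 * G 0 1 + G 1 1 * G 1 1 +
      2 * (G 1 0 * G 0 1) + 2 * (G 1 0 * G 1 1) + 2 * (G 0 1 * G 1 1) := by ring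
  rw [e, e2]
  linarith

/-- row PLC -/
theorem st_PLC (hK1 : ST_K1) (hK3 : ST_K3) (hGSW : ST_GSW) (hSUP : ST_SUP) : ST_PLC := by
  intro a b ha hb m
  have h1 : ∀ q, SLC (fun p => GA a b m p q) := hK1 a b ha hb m
  have h2 : ∀ p, SLC (fun q => GA a b m p q) := by
    intro p
    have h := hK1 b a hb ha m p
    have e : (fun q => GA a b m p q) = fun q => GA b a m q p := funext fun q => hGSW a b m p q
    rw [e]
    exact h
  have key := plc_core (fun p q => GA a b m p q) (fun p q => (h1 q).1 p)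
    (fun p q => (h1 q).2 p p le_rfl) (fun p q => (h2 p).2 q q le_rfl)
    (fun p q => hK3 a b ha hb m p q)
    (fun p q p' q' hp hq h h' => hSUP a b ha hb m p q p' q' hp hq h h')
  have e1 : GA a b (m + 1) 0 0 = GA a b m 1 0 + GA a b m 0 1 + GA a b m 1 1 := rfl
  have e2 : GA a b (m + 2) 0 0 = (GA a b m 2 0 + GA a b m 1 1 + GA a b m 2 1) +
      (GA a b m 1 1 + GA a b m 0 2 + GA a b m 1 2) +
      (GA a b m 2 1 + GA a b m 1 2 + GA a b m 2 2) := rfl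
  rw [e1, e2]
  refine le_trans (le_of_eq ?_) key
  ring

end Pool.Agent.Helper5.LCU
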